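import Pool.Agent.W_d741_h93.Defs

/-! MP_d741cf_al: final assembly from the two halves. -/

namespace FH

theorem Indep4.map {G H : Type*} [Group G] [Group H] {z : Fin 4 → G} (hz : Indep4 z) (φ : G →* H)
    (hφ : Function.Injective φ) : Indep4 fun i => φ (z i) := by
  refine ⟨fun i j => ?_, fun n hn => hz.2 n (hφ ?_)⟩
  · rw [← map_mul, ← map_mul, hz.1]
  · rw [map_one, ← hn]
    simp only [map_mul, map_zpow]

/-- Final assembly. -/
theorem not_comm (hF : FHalf) (hH : HHalf) : ¬ AbsCommensurable (Artin mF4) (Artin mH4) := by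
  rintro ⟨A, B, hA, hB, ⟨e⟩⟩
  obtain ⟨K, f, hK, h1, h2⟩ := hF
  let L : Subgroup A := K.subgroupOf A
  have hL : L.FiniteIndex := inferInstance
  let M : Subgroup B := L.map e.toMonoidHom
  have hM : M.FiniteIndex := by
    refine ⟨?_⟩
    have : M.index = L.index := by
      show (L.map e.toMonoidHom).index = L.index
      exact Subgroup.index_map_equiv L e
    rw [this]
    exact hL.index_ne_zero
  let B' : Subgroup (Artin mH4) := M.map B.subtype
  have hB' : B'.FiniteIndex := by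
    refine ⟨?_⟩
    have : B'.index = M.index * B.index := by
      show (M.map B.subtype).index = _
      rw [Subgroup.index_map_subtype]
    rw [this]
    exact mul_ne_zero hM.index_ne_zero hB.index_ne_zero
  have hle : B' ≤ B := by
    rintro _ ⟨b, _, rfl⟩
    exact b.2
  let ψ0 : B' →* Artin mF4 := A.subtype.comp (e.symm.toMonoidHom.comp (Subgroup.inclusion hle))
  have hψ0 : ∀ b : B', ψ0 b ∈ K := by
    rintro ⟨b, ⟨c, ⟨a, ha, rfl⟩, rfl⟩⟩
    have : ψ0 ⟨((e.toMonoidHom a : B) : Artin mH4), ⟨_, ⟨a, ha, rfl⟩, rfl⟩⟩ = (a : Artin mF4) := by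
      show ((e.symm (e a) : A) : Artin mF4) = a
      rw [e.symm_apply_apply]
    rw [show ψ0 ⟨B.subtype (e.toMonoidHom a), ⟨_, ⟨a, ha, rfl⟩, rfl⟩⟩ = (a : Artin mF4) from this]
    exact Subgroup.mem_subgroupOf.1 ha
  let ψ : B' →* K := ψ0.codRestrict K hψ0
  have hψ : Function.Injective ψ := by
    intro x y hxy
    have h3 : ψ0 x = ψ0 y := congrArg (fun k : K => (k : Artin mF4)) hxy
    have h4 : e.symm (Subgroup.inclusion hle x) = e.symm (Subgroup.inclusion hle y) :=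
      Subtype.ext h3
    exact Subgroup.inclusion_injective hle (e.symm.injective h4)
  have hsurj : ∀ x : K, (x : Artin mF4) ∈ A → ∃ b : B', ψ b = x := by
    intro x hx
    refine ⟨⟨(e ⟨x, hx⟩ : B), ⟨e ⟨x, hx⟩, ⟨⟨x, hx⟩, Subgroup.mem_subgroupOf.2 x.2, rfl⟩, rfl⟩⟩, ?_⟩
    apply Subtype.ext
    show ((e.symm (e ⟨x, hx⟩) : A) : Artin mF4) = x
    rw [e.symm_apply_apply]
  obtain ⟨x, hx, y, hy, hxy⟩ := h1 (A.subgroupOf K) inferInstance
  obtain ⟨x', rfl⟩ := hsurj x (Subgroup.mem_subgroupOf.1 hx)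
  obtain ⟨y', rfl⟩ := hsurj y (Subgroup.mem_subgroupOf.1 hy)
  obtain ⟨z, hz, hi⟩ := hH B' (f.comp ψ) hB' ⟨x', y', hxy⟩
  exact h2 (fun i => ψ (z i)) hz (hi.map ψ hψ)

end FH
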