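import Pool.Agent.W_d741k_h18.Sys

/-! MP_d741cf_al, F4 half: exactness on `A4` from exactness on the monoid `M4`. -/

namespace FH

open AG AM FK

/-- The central element commutes with everything. -/
theorem Dl_central (g : A4) : toGrp C4 Dl * g = g * toGrp C4 Dl := by
  have : g ∈ Subgroup.centralizer {toGrp C4 Dl} := by
    have h1 : (⊤ : Subgroup A4) ≤ Subgroup.centralizer {toGrp C4 Dl} := by
      rw [← PresentedGroup.closure_range_of, Subgroup.closure_le]
      rintro _ ⟨s, rfl⟩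
      rw [SetLike.mem_coe, Subgroup.mem_centralizer_iff]
      rintro _ rfl
      rw [← toGrp_of, ← map_mul, ← map_mul, Dl_comm]
    exact h1 (Subgroup.mem_top g)
  exact Subgroup.mem_centralizer_iff.mp this _ rfl

theorem Dl_pow_central (n : ℕ) (g : A4) : toGrp C4 Dl ^ n * g = g * toGrp C4 Dl ^ n :=
  ((show Commute (toGrp C4 Dl) g from Dl_central g).pow_left n)

/-- Finitely many elements are brought into the monoid by one power. -/
theorem exists_pow_finset (s : Finset A4) : ∃ n : ℕ, ∀ g ∈ s, ∃ x : M4,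
    toGrp C4 Dl ^ n * g = toGrp C4 x := by
  classical
  induction s using Finset.induction_on with
  | empty => exact ⟨0, fun g hg => absurd hg (Finset.notMem_empty g)⟩
  | insert a s _ ih =>
    obtain ⟨n, hn⟩ := ih
    obtain ⟨m, x, hx⟩ := exists_pow_mul4 a
    refine ⟨n + m, fun g hg => ?_⟩
    rcases Finset.mem_insert.1 hg with rfl | hg
    · exact ⟨Dl ^ n * x, by rw [pow_add, mul_assoc, hx, map_mul, map_pow]⟩
    · obtain ⟨y, hy⟩ := hn g hg
      exact ⟨Dl ^ m * y, by rw [add_comm, pow_add, mul_assoc, hy, map_mul, map_pow]⟩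

/-- The inclusion of cells. -/
def jj (q : M4 × Finset (Fin 4)) : A4 × Finset (Fin 4) := (toGrp C4 q.1, q.2)

theorem jj_injective : Function.Injective jj := by
  rintro ⟨x, T⟩ ⟨y, U⟩ h
  have h1 := congrArg Prod.fst h
  have h2 := congrArg Prod.snd h
  exact Prod.ext (toGrp4_injective h1) h2

/-- Chains of the monoid as chains of the group. -/
noncomputable def incl : AG.Ch M4 →ₗ[ℤ] AG.Ch A4 := mapC (toGrp C4)

theorem incl_apply (c : AG.Ch M4) : incl c = Finsupp.mapDomain jj c := rfl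

theorem incl_injective : Function.Injective incl := fun _ _ h =>
  Finsupp.mapDomain_injective jj_injective h

theorem incl_lsum (x : M4) (R : Finset (Fin 4)) (l : List (List (Fin 4))) :
    incl (lsum (MonoidHom.id M4) x R l) = lsum (toGrp C4) (toGrp C4 x) R l := by
  induction l with
  | nil => rw [lsum_nil, lsum_nil, map_zero]
  | cons w l ih =>
    rw [lsum_cons, lsum_cons, map_add, ih]
    congr 1
    unfold incl
    rw [mapC_single]
    congr 1
    show (toGrp C4 (mk C4 w * x), R) = (toGrp C4 (mk C4 w) * toGrp C4 x, R)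
    rw [map_mul]

theorem dC_incl (c : AG.Ch M4) :
    dC (toGrp C4) (incl c) = incl (dC (MonoidHom.id M4) c) := by
  induction c using Finsupp.induction_linear with
  | zero => simp
  | add a b ha hb => rw [map_add, map_add, map_add, map_add, ha, hb]
  | single p n =>
    have h : incl (Finsupp.single p n) = Finsupp.single (jj p) n := mapC_single _ _ _
    rw [h, dC_single, dC_single, map_zsmul]
    congr 1
    unfold dB
    rw [map_sum]
    apply Finset.sum_congr rfl
    intro s _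
    rw [map_zsmul, incl_lsum]
    rfl

/-- Left multiplication by a power of the central element. -/
noncomputable def sh (z : A4) : AG.Ch A4 →ₗ[ℤ] AG.Ch A4 := mapC (fun x => z * x)

theorem sh_sh (z w : A4) (c : AG.Ch A4) : sh z (sh w c) = sh (z * w) c := by
  unfold sh
  rw [mapC_comp]
  congr 2
  funext x
  rw [mul_assoc]

theorem sh_one (c : AG.Ch A4) : sh 1 c = c := by
  unfold sh
  simp only [one_mul]
  exact mapC_id c

theorem dC_sh (z : A4) (hz : ∀ g, z * g = g * z) (c : AG.Ch A4) :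
    dC (toGrp C4) (sh z c) = sh z (dC (toGrp C4) c) := by
  unfold sh
  refine dC_mapC (toGrp C4) _ (fun g x => ?_) c
  show z * (g * x) = g * (z * x)
  rw [← mul_assoc, hz, mul_assoc]

/-- Every chain of the group comes from the monoid after a shift. -/
theorem exists_lift {r : ℕ} {c : AG.Ch A4} (hc : c ∈ Rk cdeg A4 r) :
    ∃ (n : ℕ) (c' : AG.Ch M4), c' ∈ Rk cdeg M4 r ∧ incl c' = sh (toGrp C4 Dl ^ n) c := by
  classical
  obtain ⟨n, hn⟩ := exists_pow_finset (c.support.image Prod.fst)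
  have hsub : ∀ q ∈ (sh (toGrp C4 Dl ^ n) c).support, ∃ p, jj p = q := by
    intro q hq
    have h1 : q ∈ c.support.image (fun p : A4 × Finset (Fin 4) => (toGrp C4 Dl ^ n * p.1, p.2)) :=
      Finsupp.mapDomain_support hq
    obtain ⟨p, hp, rfl⟩ := Finset.mem_image.1 h1
    obtain ⟨x, hx⟩ := hn p.1 (Finset.mem_image_of_mem _ hp)
    exact ⟨(x, p.2), Prod.ext hx.symm rfl⟩
  have hmem : sh (toGrp C4 Dl ^ n) c ∈ Rk cdeg A4 r := push_mem cdeg _ hc
  refine ⟨n, Finsupp.comapDomain jj (sh (toGrp C4 Dl ^ n) c) jj_injective.injOn, ?_, ?_⟩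
  · refine (Finsupp.mem_supported ℤ _).2 ?_
    intro p hp
    have h1 := Finsupp.mem_support_iff.1 hp
    rw [Finsupp.comapDomain_apply] at h1
    exact (Finsupp.mem_supported ℤ _).1 hmem (Finsupp.mem_support_iff.2 h1)
  · rw [incl_apply]
    refine Finsupp.mapDomain_comapDomain jj jj_injective _ ?_
    intro q hq
    obtain ⟨p, hp⟩ := hsub q hq
    exact ⟨p, hp⟩

theorem incl_mem {r : ℕ} {c : AG.Ch M4} (hc : c ∈ Rk cdeg M4 r) : incl c ∈ Rk cdeg A4 r :=
  push_mem cdeg _ hc

theorem sh_mem {r : ℕ} (z : A4) {c : AG.Ch A4} (hc : c ∈ Rk cdeg A4 r) :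
    sh z c ∈ Rk cdeg A4 r :=
  push_mem cdeg _ hc

/-- The end of the two transfers. -/
theorem transfer_end {r n : ℕ} {c : AG.Ch A4} {c' b' : AG.Ch M4} (hb : b' ∈ Rk cdeg M4 r)
    (h : incl c' = sh (toGrp C4 Dl ^ n) c) (hd : dC (MonoidHom.id M4) b' = c') :
    ∃ b ∈ Rk cdeg A4 r, dC (toGrp C4) b = c := by
  refine ⟨sh (toGrp C4 Dl ^ n)⁻¹ (incl b'), sh_mem _ (incl_mem hb), ?_⟩
  have hz : ∀ g : A4, (toGrp C4 Dl ^ n)⁻¹ * g = g * (toGrp C4 Dl ^ n)⁻¹ := by
    intro g
    exact ((show Commute (toGrp C4 Dl ^ n) g from Dl_pow_central n g).inv_left)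
  rw [dC_sh _ hz, dC_incl, hd, h, sh_sh, inv_mul_cancel, sh_one]

/-- Exactness in positive rank. -/
theorem ex_of_exM
    (exM : ∀ r, ∀ c ∈ Rk cdeg M4 (r + 1), dC (MonoidHom.id M4) c = 0 →
      ∃ b ∈ Rk cdeg M4 (r + 2), dC (MonoidHom.id M4) b = c) :
    ∀ r, ∀ c ∈ Rk cdeg A4 (r + 1), dC (toGrp C4) c = 0 →
      ∃ b ∈ Rk cdeg A4 (r + 2), dC (toGrp C4) b = c := by
  intro r c hc h0
  obtain ⟨n, c', hc', h⟩ := exists_lift hc
  have h1 : dC (MonoidHom.id M4) c' = 0 := by
    apply incl_injective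
    rw [← dC_incl, h, dC_sh _ (Dl_pow_central n), h0, map_zero, map_zero]
  obtain ⟨b', hb', hd⟩ := exM r c' hc' h1
  exact transfer_end hb' h hd

/-- Exactness in rank zero. -/
theorem ex0_of_ex0M
    (ex0M : ∀ c ∈ Rk cdeg M4 0, (c.sum fun _ a => a) = 0 →
      ∃ b ∈ Rk cdeg M4 1, dC (MonoidHom.id M4) b = c) :
    ∀ c ∈ Rk cdeg A4 0, (c.sum fun _ a => a) = 0 →
      ∃ b ∈ Rk cdeg A4 1, dC (toGrp C4) b = c := by
  intro c hc h0
  obtain ⟨n, c', hc', h⟩ := exists_lift hc
  have h1 : (c'.sum fun _ a => a) = 0 := by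
    have h2 : ((incl c').sum fun _ a => a) = c'.sum fun _ a => a := sum_push _ _
    have h3 : ((sh (toGrp C4 Dl ^ n) c).sum fun _ a => a) = c.sum fun _ a => a := sum_push _ _
    rw [← h2, h, h3, h0]
  obtain ⟨b', hb', hd⟩ := ex0M c' hc' h1
  exact transfer_end hb' h hd

end FH
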