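import Mathlib

/-! MP_d741cf_al: the Artin groups of type F4 and H4 are not commensurable. Definitions of the
final statement. FROZEN. -/

namespace FH

/-- The alternating word `a * b * a * b * ...` with `n` letters. -/
def alt {M : Type*} [Monoid M] (a b : M) : ℕ → M
  | 0 => 1
  | n + 1 => a * alt b a n

/-- The defining relations of the Artin group of the matrix `m`. -/
def artinRels {S : Type*} (m : S → S → ℕ) : Set (FreeGroup S) :=
  {r | ∃ i j : S, i ≠ j ∧ r = alt (FreeGroup.of i) (FreeGroup.of j) (m i j) *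
    (alt (FreeGroup.of j) (FreeGroup.of i) (m i j))⁻¹}

/-- The Artin group of the matrix `m` (all `m i j` finite). -/
abbrev Artin {S : Type*} (m : S → S → ℕ) : Type _ := PresentedGroup (artinRels m)

/-- The Coxeter matrix of type F4. -/
def mF4 : Fin 4 → Fin 4 → ℕ :=
  ![![1, 3, 2, 2], ![3, 1, 4, 2], ![2, 4, 1, 3], ![2, 2, 3, 1]]

/-- The Coxeter matrix of type H4. -/
def mH4 : Fin 4 → Fin 4 → ℕ :=
  ![![1, 5, 2, 2], ![5, 1, 3, 2], ![2, 3, 1, 3], ![2, 2, 3, 1]]

/-- `G` and `H` are (abstractly) commensurable: a subgroup of finite index of `G` is isomorphic to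
a subgroup of finite index of `H`. -/
def AbsCommensurable (G H : Type*) [Group G] [Group H] : Prop :=
  ∃ (A : Subgroup G) (B : Subgroup H), A.FiniteIndex ∧ B.FiniteIndex ∧ Nonempty (A ≃* B)

/-- Four commuting elements `z` without relation: they generate a free abelian group of rank 4. -/
def Indep4 {G : Type*} [Group G] (z : Fin 4 → G) : Prop :=
  (∀ i j, z i * z j = z j * z i) ∧
  ∀ n : Fin 4 → ℤ, z 0 ^ n 0 * z 1 ^ n 1 * z 2 ^ n 2 * z 3 ^ n 3 = 1 → n = 0

/-- The H4 half: every homomorphism from a finite index subgroup of A(H4) to a free group with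
non-commutative image kills a free abelian group of rank 4. -/
def HHalf : Prop := ∀ (K : Subgroup (Artin mH4)) (f : K →* FreeGroup (Fin 2)), K.FiniteIndex →
  (∃ x y, f x * f y ≠ f y * f x) → ∃ z : Fin 4 → K, (∀ i, f (z i) = 1) ∧ Indep4 z

/-- The F4 half: there is a homomorphism from a finite index subgroup of A(F4) to a free group,
non-commutative on every subgroup of finite index, whose kernel contains no free abelian group
of rank 4. -/
def FHalf : Prop := ∃ (K : Subgroup (Artin mF4)) (f : K →* FreeGroup (Fin 2)), K.FiniteIndex ∧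
    (∀ L : Subgroup K, L.FiniteIndex → ∃ x ∈ L, ∃ y ∈ L, f x * f y ≠ f y * f x) ∧
    ∀ z : Fin 4 → K, (∀ i, f (z i) = 1) → ¬ Indep4 z

end FH
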