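import Pool.Agent.W_d741_h93.Defs
import Pool.Agent.W_d741k_h18.C

/-! MP_d741cf_al, F4 half. The homomorphism from a subgroup of index 6 of `A4` to the free group. -/

namespace FH

open FK AG

/-- The free group on two letters. -/
abbrev F2 : Type := FreeGroup (Fin 2)

/-- The sheets. -/
abbrev Sh : Type := Bool × Fin 3

/-- The pair `(x, (e, d))` stands for `t^e r^d x` in `Z/2 * Z/3`, where
`F2` is the kernel of `Z/2 * Z/3 → Z/2 × Z/3` with basis `X = r⁻¹ t r t`, `Y = r⁻² t r t r`. -/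
abbrev Y6 : Type := F2 × Sh

/-- The cocycle of `r`: `r t r^d = t r^(d+1) c_d`. -/
def cc : Fin 3 → F2
  | 0 => FreeGroup.of 0
  | 1 => FreeGroup.of 1
  | 2 => (FreeGroup.of 0)⁻¹ * (FreeGroup.of 1)⁻¹

/-- `t`. -/
def yt : Y6 → Y6 := fun p => (p.1, (!p.2.1, p.2.2))

/-- `r`. -/
def yr : Y6 → Y6
  | (x, (false, d)) => (x, (false, d + 1))
  | (x, (true, d)) => (cc d * x, (true, d + 1))

theorem yt_yt (p : Y6) : yt (yt p) = p := by
  unfold yt
  simp

theorem yr_yr_yr (p : Y6) : yr (yr (yr p)) = p := by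
  rcases p with ⟨x, ⟨_ | _, d⟩⟩
  · fin_cases d <;> rfl
  · fin_cases d
    · simp [yr, cc, mul_assoc]
    · simp [yr, cc, mul_assoc]
    · have h : FreeGroup.of (1 : Fin 2) * (FreeGroup.of 0 * ((FreeGroup.of 0)⁻¹ *
          (FreeGroup.of 1)⁻¹ * x)) = x := by group
      simpa [yr, cc] using h

/-- `t` as a permutation. -/
def tQ : Equiv.Perm Y6 := ⟨yt, yt, yt_yt, yt_yt⟩

/-- `r` as a permutation. -/
def rQ : Equiv.Perm Y6 := ⟨yr, fun y => yr (yr y), yr_yr_yr, yr_yr_yr⟩

/-- The images of the generators. -/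
def gQ : Fin 4 → Equiv.Perm Y6
  | 0 => tQ * (rQ * rQ)
  | 1 => rQ * rQ * tQ
  | 2 => 1
  | 3 => 1

/-- The action of `A4` on `Y6`. -/
def Q : A4 →* Equiv.Perm Y6 := PresentedGroup.toGroup (f := gQ) (by
  rintro r ⟨s, t, hst, rfl⟩
  rw [map_mul, map_inv, mul_inv_eq_one, map_list_prod, map_list_prod, List.map_map, List.map_map]
  have e : (FreeGroup.lift gQ) ∘ FreeGroup.of = gQ := by
    funext x
    simp
  rw [e]
  have h1 : tQ * (rQ * rQ) * (rQ * rQ * tQ) * (tQ * (rQ * rQ)) =
      rQ * rQ * tQ * (tQ * (rQ * rQ)) * (rQ * rQ * tQ) := by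
    apply Equiv.ext
    intro y
    show yt (yr (yr (yr (yr (yt (yt (yr (yr y)))))))) =
      yr (yr (yt (yt (yr (yr (yr (yr (yt y))))))))
    simp only [yt_yt, yr_yr_yr]
  fin_cases s <;> fin_cases t <;> first | exact absurd rfl hst | skip
  all_goals simp [C4, gQ]
  · rw [← mul_assoc] at h1
    simpa [mul_assoc] using h1
  · simpa [mul_assoc] using h1.symm)

theorem Q_of (s : Fin 4) : Q (PresentedGroup.of s) = gQ s := PresentedGroup.toGroup.of _

/-- The induction principle used below. -/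
theorem gen_ind {P : A4 → Prop} (h1 : P 1) (hm : ∀ g h, P g → P h → P (g * h))
    (hi : ∀ g, P g → P g⁻¹) (hg : ∀ s, P (PresentedGroup.of s)) (g : A4) : P g := by
  let S : Subgroup A4 :=
    { carrier := {g | P g}
      mul_mem' := fun {a b} ha hb => hm a b ha hb
      one_mem' := h1
      inv_mem' := fun {a} ha => hi a ha }
  have h2 : Subgroup.closure (Set.range (PresentedGroup.of (rels := grpRels C4))) ≤ S := by
    rw [Subgroup.closure_le]
    rintro _ ⟨s, rfl⟩
    exact hg s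
  rw [PresentedGroup.closure_range_of] at h2
  exact h2 (Subgroup.mem_top g)

/-- A property of the two permutations implies the property of the action. -/
theorem Q_ind {P : Equiv.Perm Y6 → Prop} (h1 : P 1) (hm : ∀ g h, P g → P h → P (g * h))
    (hi : ∀ g, P g → P g⁻¹) (ht : P tQ) (hr : P rQ) (g : A4) : P (Q g) := by
  refine gen_ind (P := fun g => P (Q g)) ?_ ?_ ?_ ?_ g
  · rw [map_one]; exact h1
  · intro g h hg hh
    rw [map_mul]; exact hm _ _ hg hh
  · intro g hg
    rw [map_inv]; exact hi _ hg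
  · intro s
    rw [Q_of]
    fin_cases s
    · exact hm _ _ ht (hm _ _ hr hr)
    · exact hm _ _ (hm _ _ hr hr) ht
    · exact h1
    · exact h1

/-- Right multiplication commutes with the action. -/
theorem Q_right (g : A4) : ∀ (x y : F2) (i : Sh),
    Q g (x * y, i) = ((Q g (x, i)).1 * y, (Q g (x, i)).2) := by
  refine Q_ind (P := fun σ => ∀ (x y : F2) (i : Sh), σ (x * y, i) = ((σ (x, i)).1 * y, (σ (x, i)).2))
    ?_ ?_ ?_ ?_ ?_ g
  · intro x y i
    rfl
  · intro g h hg hh x y i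
    rw [Equiv.Perm.mul_apply, hh, hg]
    rfl
  · intro g hg x y i
    rw [Equiv.Perm.inv_eq_iff_eq, hg]
    simp
  · intro x y i
    rfl
  · rintro x y ⟨_ | _, d⟩
    · rfl
    · show (cc d * (x * y), _) = (cc d * x * y, _)
      rw [mul_assoc]
      rfl

theorem Q_eq (g : A4) (x : F2) (i : Sh) :
    Q g (x, i) = ((Q g (1, i)).1 * x, (Q g (1, i)).2) := by
  have := Q_right g 1 x i
  rwa [one_mul] at this

/-- The images of the letters in the permutations of the reduced words. -/
def rho : F2 →* Equiv.Perm RW := FreeGroup.lift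
  ![rP⁻¹ * tP * rP * tP, rP⁻¹ * rP⁻¹ * tP * rP * tP * rP]

/-- The equivariant map. -/
def theta (p : Y6) : RW :=
  (cond p.2.1 tP 1 * rP ^ (p.2.2 : ℕ) * rho p.1) (false, [])

theorem theta_base : theta (1, (false, 0)) = (false, []) := by
  simp [theta]

theorem tPtP_apply (y : RW) : tP (tP y) = y := tA_tA y
theorem rPrPrP_apply (y : RW) : rP (rP (rP y)) = y := rA_rA_rA y

theorem theta_t (p : Y6) : theta (yt p) = tP (theta p) := by
  rcases p with ⟨x, ⟨_ | _, d⟩⟩
  · simp [theta, yt]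
  · simp [theta, yt, tPtP_apply]

theorem rho_zero : rho (FreeGroup.of 0) = rP⁻¹ * tP * rP * tP := by
  simp [rho]

theorem rho_one : rho (FreeGroup.of 1) = rP⁻¹ * rP⁻¹ * tP * rP * tP * rP := by
  simp [rho]

theorem tP_inv : tP⁻¹ = tP := inv_eq_of_mul_eq_one_left tP_tP

theorem rP_inv : rP⁻¹ = rP * rP := inv_eq_of_mul_eq_one_left rP_rP_rP

theorem tt (x : Equiv.Perm RW) : tP * (tP * x) = x := by
  rw [← mul_assoc, tP_tP, one_mul]

theorem rrr (x : Equiv.Perm RW) : rP * (rP * (rP * x)) = x := by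
  rw [← mul_assoc, ← mul_assoc, rP_rP_rP, one_mul]

theorem rrr' : rP * (rP * rP) = 1 := by
  rw [← mul_assoc, rP_rP_rP]

theorem coc : ∀ d : Fin 3, rP * (tP * rP ^ (d : ℕ)) =
    tP * rP ^ ((d + 1 : Fin 3) : ℕ) * rho (cc d) := by
  intro d
  fin_cases d
  · simp [cc, rho_zero, rP_inv, mul_assoc, tt, rrr]
  · simp [cc, rho_one, rP_inv, mul_assoc, tt, rrr, rrr', pow_succ]
  · simp [cc, rho_zero, rho_one, rP_inv, tP_inv, mul_assoc, tt, rrr, rrr', pow_succ]

theorem theta_r (p : Y6) : theta (yr p) = rP (theta p) := by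
  rcases p with ⟨x, ⟨_ | _, d⟩⟩
  · fin_cases d
    · simp [theta, yr]
    · simp [theta, yr, pow_succ]
    · simp [theta, yr, pow_succ, rPrPrP_apply]
  · have h := coc d
    show (tP * rP ^ ((d + 1 : Fin 3) : ℕ) * rho (cc d * x)) (false, []) =
      rP ((tP * rP ^ (d : ℕ) * rho x) (false, []))
    rw [map_mul, ← mul_assoc, ← h, ← Equiv.Perm.mul_apply, mul_assoc, mul_assoc]

/-- `theta` is equivariant. -/
theorem theta_Q (g : A4) : ∀ p, theta (Q g p) = Ψ g (theta p) := by
  refine gen_ind (P := fun g => ∀ p, theta (Q g p) = Ψ g (theta p)) ?_ ?_ ?_ ?_ g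
  · intro p
    simp
  · intro g h hg hh p
    rw [map_mul, map_mul, Equiv.Perm.mul_apply, Equiv.Perm.mul_apply, hg, hh]
  · intro g hg p
    rw [map_inv, map_inv, Equiv.Perm.eq_inv_iff_eq, ← hg]
    congr 1
    exact Equiv.apply_symm_apply _ _
  · intro s p
    rw [Q_of, Ψ_of]
    fin_cases s
    · show theta (yt (yr (yr p))) = tP (rP (rP (theta p)))
      rw [theta_t, theta_r, theta_r]
    · show theta (yr (yr (yt p))) = rP (rP (tP (theta p)))
      rw [theta_r, theta_r, theta_t]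
    · rfl
    · rfl

/-- The action on the sheets. -/
theorem Q_sheet (g : A4) (i : Sh) (x : F2) : (Q g (x, i)).2 = (Q g (1, i)).2 := by
  rw [Q_eq]

/-- The stabiliser of the sheet `0`. -/
def K0 : Subgroup A4 where
  carrier := {g | (Q g (1, (false, 0))).2 = (false, 0)}
  mul_mem' := by
    intro g h hg hh
    show (Q (g * h) (1, (false, 0))).2 = (false, 0)
    have hh' : Q h (1, (false, 0)) = ((Q h (1, (false, 0))).1, (false, 0)) := Prod.ext rfl hh
    rw [map_mul, Equiv.Perm.mul_apply, hh', Q_sheet]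
    exact hg
  one_mem' := rfl
  inv_mem' := by
    intro g hg
    show (Q g⁻¹ (1, (false, 0))).2 = (false, 0)
    have hg' : Q g (1, (false, 0)) = ((Q g (1, (false, 0))).1, (false, 0)) := Prod.ext rfl hg
    have h1 : Q g ((Q g (1, (false, 0))).1⁻¹, (false, 0)) = (1, (false, 0)) := by
      rw [Q_eq, hg]
      simp
    rw [map_inv]
    have h2 : (Q g)⁻¹ (1, (false, 0)) = ((Q g (1, (false, 0))).1⁻¹, (false, 0)) := by
      rw [Equiv.Perm.inv_eq_iff_eq, h1]
    rw [h2]

theorem mem_K0 {g : A4} : g ∈ K0 ↔ (Q g (1, (false, 0))).2 = (false, 0) := Iff.rfl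

theorem Q_K0 {g : A4} (hg : g ∈ K0) (x : F2) :
    Q g (x, (false, 0)) = ((Q g (1, (false, 0))).1 * x, (false, 0)) := by
  rw [Q_eq, mem_K0.1 hg]

/-- Finite index: the group acts on the six sheets. -/
theorem K0_finite : K0.FiniteIndex := by
  refine ⟨?_⟩
  have : Finite (A4 ⧸ K0) := by
    let F : A4 ⧸ K0 → Sh := Quotient.lift (fun g : A4 => (Q g (1, (false, 0))).2) (by
      intro g g' h
      have h1 := QuotientGroup.leftRel_apply.1 h
      show (Q g (1, (false, 0))).2 = (Q g' (1, (false, 0))).2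
      have h2 : g' = g * (g⁻¹ * g') := by group
      rw [h2, map_mul, Equiv.Perm.mul_apply, Q_K0 h1]
      exact (Q_sheet _ _ _).symm)
    have hF : Function.Injective F := by
      intro x y
      induction x using QuotientGroup.induction_on with
      | H g =>
        induction y using QuotientGroup.induction_on with
        | H g' =>
          intro h
          have h : (Q g (1, (false, 0))).2 = (Q g' (1, (false, 0))).2 := h
          rw [QuotientGroup.eq, mem_K0, map_mul, Equiv.Perm.mul_apply, map_inv]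
          have h1 : Q g' (1, (false, 0)) = Q g ((Q g (1, (false, 0))).1⁻¹ *
              (Q g' (1, (false, 0))).1, (false, 0)) := by
            rw [Q_eq g]
            exact Prod.ext (by simp) h.symm
          rw [h1]
          exact congrArg Prod.snd (Equiv.symm_apply_apply (Q g) _)
    exact Finite.of_injective F hF
  exact Subgroup.index_ne_zero_of_finite

/-- The homomorphism `f g = (Q g (1, 0)).1`. -/
def fF : K0 →* F2 where
  toFun g := (Q g.1 (1, (false, 0))).1
  map_one' := rfl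
  map_mul' := by
    intro g h
    show (Q (g.1 * h.1) (1, (false, 0))).1 = _
    rw [map_mul, Equiv.Perm.mul_apply, Q_K0 h.2, mul_one, Q_K0 g.2]

/-- An element of the kernel fixes the base vertex. -/
theorem fF_ker (g : K0) (h : fF g = 1) : Ψ g.1 (false, []) = (false, []) := by
  have h1 : Q g.1 (1, (false, 0)) = (1, (false, 0)) := Prod.ext h g.2
  rw [← theta_base, ← theta_Q, h1]

/-- The elements acting as `t` and `r`. -/
def gt : A4 := PresentedGroup.of 0 * (PresentedGroup.of 1 * PresentedGroup.of 0)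
def gr : A4 := PresentedGroup.of 1 * PresentedGroup.of 0

theorem Q_gt : Q gt = tQ := by
  unfold gt
  rw [map_mul, map_mul, Q_of, Q_of]
  apply Equiv.ext
  intro y
  show yt (yr (yr (yr (yr (yt (yt (yr (yr y)))))))) = yt y
  simp only [yt_yt, yr_yr_yr]

theorem Q_gr : Q gr = rQ := by
  unfold gr
  rw [map_mul, Q_of, Q_of]
  apply Equiv.ext
  intro y
  show yr (yr (yt (yt (yr (yr y))))) = yr y
  simp only [yt_yt, yr_yr_yr]

/-- `X`. -/
theorem exists_u : ∃ u : K0, fF u = FreeGroup.of 0 := by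
  have h : Q (gr * gr * gt * gr * gt) (1, (false, 0)) = (FreeGroup.of 0, (false, 0)) := by
    rw [map_mul, map_mul, map_mul, map_mul, Q_gt, Q_gr]
    show yr (yr (yt (yr (yt (1, (false, 0)))))) = (FreeGroup.of 0, (false, 0))
    simp [yr, yt, cc]
  exact ⟨⟨_, mem_K0.2 (congrArg Prod.snd h)⟩, congrArg Prod.fst h⟩

/-- `Y`. -/
theorem exists_v : ∃ v : K0, fF v = FreeGroup.of 1 := by
  have h : Q (gr * gt * gr * gt * gr) (1, (false, 0)) = (FreeGroup.of 1, (false, 0)) := by
    rw [map_mul, map_mul, map_mul, map_mul, Q_gt, Q_gr]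
    show yr (yt (yr (yt (yr (1, (false, 0)))))) = (FreeGroup.of 1, (false, 0))
    simp [yr, yt, cc]
  exact ⟨⟨_, mem_K0.2 (congrArg Prod.snd h)⟩, congrArg Prod.fst h⟩

/-- The two shears of the plane. -/
def shX : Equiv.Perm (ℤ × ℤ) :=
  ⟨fun p => (p.1 + p.2, p.2), fun p => (p.1 - p.2, p.2), fun p => by simp, fun p => by simp⟩
def shY : Equiv.Perm (ℤ × ℤ) :=
  ⟨fun p => (p.1, p.2 + p.1), fun p => (p.1, p.2 - p.1), fun p => by simp, fun p => by simp⟩

theorem shX_pow (n : ℕ) (a b : ℤ) : (shX ^ n) (a, b) = (a + n * b, b) := by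
  induction n with
  | zero => simp
  | succ n ih =>
    rw [pow_succ', Equiv.Perm.mul_apply, ih]
    show (a + n * b + b, b) = _
    push_cast
    ring_nf

theorem shY_pow (n : ℕ) (a b : ℤ) : (shY ^ n) (a, b) = (a, b + n * a) := by
  induction n with
  | zero => simp
  | succ n ih =>
    rw [pow_succ', Equiv.Perm.mul_apply, ih]
    show (a, b + n * a + a) = _
    push_cast
    ring_nf

/-- Powers of the two letters do not commute. -/
theorem pow_ne {n k : ℕ} (hn : 0 < n) (hk : 0 < k) :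
    (FreeGroup.of (0 : Fin 2)) ^ n * (FreeGroup.of (1 : Fin 2)) ^ k ≠
      (FreeGroup.of (1 : Fin 2)) ^ k * (FreeGroup.of (0 : Fin 2)) ^ n := by
  intro h
  have h1 := congrArg (fun x => (FreeGroup.lift ![shX, shY] x) (1, 0)) h
  simp only [map_mul, map_pow, FreeGroup.lift_apply_of, Matrix.cons_val_zero, Matrix.cons_val_one,
    Equiv.Perm.mul_apply, shX_pow, shY_pow] at h1
  have h2 := congrArg Prod.fst h1
  simp at h2
  omega

theorem fF_noncomm (L : Subgroup K0) (hL : L.FiniteIndex) :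
    ∃ x ∈ L, ∃ y ∈ L, fF x * fF y ≠ fF y * fF x := by
  obtain ⟨u, hu⟩ := exists_u
  obtain ⟨v, hv⟩ := exists_v
  obtain ⟨n, hn, _, hnL⟩ := Subgroup.exists_pow_mem_of_index_ne_zero hL.index_ne_zero u
  obtain ⟨k, hk, _, hkL⟩ := Subgroup.exists_pow_mem_of_index_ne_zero hL.index_ne_zero v
  refine ⟨u ^ n, hnL, v ^ k, hkL, ?_⟩
  rw [map_pow, map_pow, hu, hv]
  exact pow_ne hn hk

end FH
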