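import Pool.Agent.W_d741_h93.Free
import Pool.Agent.W_d741_h93.Fin
import Pool.Agent.W_d741k_h18.NoZ

/-! MP_d741cf_al, F4 half, from the complex. -/

namespace FH

open FK AG

theorem rels_eq : artinRels mF4 = grpRels C4 := by
  have key : ∀ i j : Fin 4, i ≠ j → alt (FreeGroup.of i) (FreeGroup.of j) (mF4 i j) =
      ((i :: C4 i j).map FreeGroup.of).prod := by
    intro i j hij
    fin_cases i <;> fin_cases j <;> first | exact absurd rfl hij | rfl
  have sym : ∀ i j : Fin 4, mF4 i j = mF4 j i := by decide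
  unfold artinRels grpRels
  ext r
  constructor
  · rintro ⟨i, j, hij, rfl⟩
    refine ⟨i, j, hij, ?_⟩
    rw [← key i j hij, ← key j i hij.symm, sym j i]
  · rintro ⟨i, j, hij, rfl⟩
    refine ⟨i, j, hij, ?_⟩
    rw [← key i j hij, ← key j i hij.symm, sym j i]

/-- The two presentations of the Artin group of type F4 are the same. -/
theorem exists_eqv : Nonempty (A4 ≃* Artin mF4) := by
  unfold A4 AGp Artin
  rw [rels_eq]
  exact ⟨MulEquiv.refl _⟩

/-- The homomorphism of four commuting elements. -/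
def rhoOf {G : Type*} [Group G] (z : Fin 4 → G) (hz : Indep4 z) :
    Multiplicative (Fin 4 → ℤ) →* G where
  toFun n := z 0 ^ (Multiplicative.toAdd n 0) * z 1 ^ (Multiplicative.toAdd n 1) *
    z 2 ^ (Multiplicative.toAdd n 2) * z 3 ^ (Multiplicative.toAdd n 3)
  map_one' := by simp
  map_mul' := by
    intro a b
    have c : ∀ (i j : Fin 4) (p q : ℤ), Commute (z i ^ p) (z j ^ q) := fun i j p q =>
      ((show Commute (z i) (z j) from hz.1 i j).zpow_left p).zpow_right q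
    simp only [toAdd_mul, Pi.add_apply, zpow_add]
    rw [(c 0 1 _ _).mul_mul_mul_comm, ((c 0 2 _ _).mul_left (c 1 2 _ _)).mul_mul_mul_comm,
      (((c 0 3 _ _).mul_left (c 1 3 _ _)).mul_left (c 2 3 _ _)).mul_mul_mul_comm]

theorem rhoOf_injective {G : Type*} [Group G] (z : Fin 4 → G) (hz : Indep4 z) :
    Function.Injective (rhoOf z hz) := by
  rw [injective_iff_map_eq_one]
  intro n hn
  exact hz.2 n hn

theorem rhoOf_mem {G : Type*} [Group G] (z : Fin 4 → G) (hz : Indep4 z) (S : Subgroup G)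
    (h : ∀ i, z i ∈ S) (n : Multiplicative (Fin 4 → ℤ)) : rhoOf z hz n ∈ S :=
  mul_mem (mul_mem (mul_mem (zpow_mem (h 0) _) (zpow_mem (h 1) _)) (zpow_mem (h 2) _))
    (zpow_mem (h 3) _)

/-- The F4 half for `A4`. -/
theorem fF_noZ4 (S : Sys A4 cdeg) (hS : S.Res) (hc : Coef S) (z : Fin 4 → K0)
    (h : ∀ i, fF (z i) = 1) : ¬ Indep4 z := by
  intro hz
  have hz' : Indep4 fun i => K0.subtype (z i) := hz.map K0.subtype K0.subtype_injective
  refine no_Z4 S hS hc (rhoOf_injective _ hz') fun n => ?_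
  have h1 := rhoOf_mem _ hz' (fF.ker.map K0.subtype)
    (fun i => ⟨z i, MonoidHom.mem_ker.2 (h i), rfl⟩) n
  obtain ⟨g, hg, hg'⟩ := h1
  rw [← hg']
  exact fF_ker g (MonoidHom.mem_ker.1 hg)

/-- **The F4 half.** -/
theorem fHalf (S : Sys A4 cdeg) (hS : S.Res) (hc : Coef S) : FHalf := by
  have h : ∃ (K : Subgroup A4) (f : K →* FreeGroup (Fin 2)), K.FiniteIndex ∧
      (∀ L : Subgroup K, L.FiniteIndex → ∃ x ∈ L, ∃ y ∈ L, f x * f y ≠ f y * f x) ∧
      ∀ z : Fin 4 → K, (∀ i, f (z i) = 1) → ¬ Indep4 z :=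
    ⟨K0, fF, K0_finite, fF_noncomm, fun z hz => fF_noZ4 S hS hc z hz⟩
  unfold A4 AGp at h
  rw [← rels_eq] at h
  exact h

end FH
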